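import Pool.Agent.Helper4.CoGirth.RigidNP

/-!
If P = NP then the co-girth of the planar rigidity matroid can be computed in polynomial time.
-/

set_option autoImplicit false

namespace Pool.Agent.Helper4.CoGirth

open Pool.Agent.PolyTime Pool.Agent.Helper77.CoGirth

/-- is the edge `i < j` deleted by the mask `l`? -/
def delB (M : List (List Bool)) (l : List ℕ) (i j : ℕ) : Bool :=
  decide (i < j) && adjB M i j && !decide (l.getD (i * M.length + j) 0 = 0)

/-- is the edge `i < j` kept by the mask `l`? -/
def keepB (M : List (List Bool)) (l : List ℕ) (i j : ℕ) : Bool :=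
  decide (i < j) && adjB M i j && decide (l.getD (i * M.length + j) 0 = 0)

/-- the adjacency matrix of the remaining graph -/
def msk (M : List (List Bool)) (l : List ℕ) : List (List Bool) :=
  (List.range M.length).map (fun i => (List.range M.length).map (fun j => keepB M l i j))

/-- the number of deleted edges -/
def cnt (M : List (List Bool)) (l : List ℕ) : ℕ :=
  ((List.range M.length).flatMap (fun i => (List.range M.length).filter
    (fun j => delB M l i j))).length

section poly

variable {α : Type} [PEnc α]

@[fun_prop]
theorem polyTime_delB {M : α → List (List Bool)} {l : α → List ℕ} {i j : α → ℕ} (hM : PolyTime M)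
    (hl : PolyTime l) (hi : PolyTime i) (hj : PolyTime j) :
    PolyTime (fun a => delB (M a) (l a) (i a) (j a)) := by
  unfold delB
  fun_prop

@[fun_prop]
theorem polyTime_keepB {M : α → List (List Bool)} {l : α → List ℕ} {i j : α → ℕ} (hM : PolyTime M)
    (hl : PolyTime l) (hi : PolyTime i) (hj : PolyTime j) :
    PolyTime (fun a => keepB (M a) (l a) (i a) (j a)) := by
  unfold keepB
  fun_prop

@[fun_prop]
theorem polyTime_msk {M : α → List (List Bool)} {l : α → List ℕ} (hM : PolyTime M)
    (hl : PolyTime l) : PolyTime (fun a => msk (M a) (l a)) := by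
  unfold msk
  fun_prop

@[fun_prop]
theorem polyTime_cnt {M : α → List (List Bool)} {l : α → List ℕ} (hM : PolyTime M)
    (hl : PolyTime l) : PolyTime (fun a => cnt (M a) (l a)) := by
  unfold cnt
  fun_prop

end poly

/-- The set of deleted edges. -/
noncomputable def delF (M : List (List Bool)) (l : List ℕ) : Finset (Sym2 (Fin M.length)) :=
  ((Finset.univ : Finset (Fin M.length × Fin M.length)).filter
    (fun q => delB M l q.1 q.2 = true)).image (fun q => s(q.1, q.2))

theorem mem_delF {M : List (List Bool)} {l : List ℕ} {i j : Fin M.length} :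
    s(i, j) ∈ delF M l ↔ delB M l i j = true ∨ delB M l j i = true := by
  unfold delF
  rw [Finset.mem_image]
  constructor
  · rintro ⟨⟨a, b⟩, h, he⟩
    rw [Finset.mem_filter] at h
    rw [Sym2.eq_iff] at he
    rcases he with ⟨h1, h2⟩ | ⟨h1, h2⟩
    · simp only at h1 h2
      subst h1 h2
      exact Or.inl h.2
    · simp only at h1 h2
      subst h1 h2
      exact Or.inr h.2
  · rintro (h | h)
    · exact ⟨(i, j), Finset.mem_filter.2 ⟨Finset.mem_univ _, h⟩, rfl⟩
    · exact ⟨(j, i), Finset.mem_filter.2 ⟨Finset.mem_univ _, h⟩, Sym2.eq_swap⟩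

theorem card_delF (M : List (List Bool)) (l : List ℕ) : (delF M l).card = cnt M l := by
  unfold delF
  rw [Finset.card_image_of_injOn]
  · unfold cnt
    rw [List.length_flatMap]
    rw [Finset.card_filter, Fintype.sum_prod_type]
    have h1 : ∀ i : ℕ, ((List.range M.length).filter (fun j => delB M l i j)).length =
        ∑ j : Fin M.length, if delB M l i j = true then 1 else 0 := by
      intro i
      rw [Fin.sum_univ_eq_sum_range (fun j => if delB M l i j = true then 1 else 0) M.length]
      rw [← Finset.card_filter]
      rw [← List.toFinset_card_of_nodup (List.nodup_range.filter _)]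
      congr 1
      ext j
      simp
    simp only [h1]
    rw [Fin.sum_univ_eq_sum_range
      (fun i => ∑ j : Fin M.length, if delB M l i j = true then 1 else 0) M.length]
    rw [← List.sum_toFinset _ List.nodup_range, List.toFinset_range]
  · rintro ⟨a, b⟩ h1 ⟨c, d⟩ h2 he
    rw [Finset.mem_coe, Finset.mem_filter] at h1 h2
    have h3 : (a : ℕ) < b := by
      have := h1.2
      unfold delB at this
      simp only [Bool.and_eq_true, decide_eq_true_eq] at this
      exact this.1.1
    have h4 : (c : ℕ) < d := by
      have := h2.2
      unfold delB at this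
      simp only [Bool.and_eq_true, decide_eq_true_eq] at this
      exact this.1.1
    simp only at he
    rw [Sym2.eq_iff] at he
    rcases he with ⟨e1, e2⟩ | ⟨e1, e2⟩
    · rw [e1, e2]
    · subst e1 e2
      omega

theorem delF_subset (M : List (List Bool)) (l : List ℕ) :
    (delF M l : Set (Sym2 (Fin M.length))) ⊆ (graphOf M).edgeSet := by
  intro e he
  induction e with
  | _ i j =>
    rw [Finset.mem_coe, mem_delF] at he
    rw [SimpleGraph.mem_edgeSet, adj_graphOf]
    rcases he with h | h
    · unfold delB at h
      simp only [Bool.and_eq_true] at h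
      exact h.1.2
    · unfold delB at h
      simp only [Bool.and_eq_true] at h
      rw [← adj_graphOf]
      exact (adj_graphOf.2 h.1.2).symm

theorem length_msk (M : List (List Bool)) (l : List ℕ) : (msk M l).length = M.length := by
  unfold msk
  simp

theorem entry_msk {M : List (List Bool)} {l : List ℕ} {i j : ℕ} (hi : i < M.length)
    (hj : j < M.length) : entry (msk M l) i j = keepB M l i j := by
  unfold entry msk
  simp [List.getD, hi, hj]

theorem adjB_symm (M : List (List Bool)) (i j : ℕ) : adjB M i j = adjB M j i := by
  unfold adjB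
  rw [Bool.or_comm]
  congr 2
  exact decide_eq_decide.2 ⟨Eq.symm, Eq.symm⟩

theorem adj_msk_iff {M : List (List Bool)} {l : List ℕ} {i j : ℕ} (hi : i < M.length)
    (hj : j < M.length) : adjB (msk M l) i j = true ↔
      adjB M i j = true ∧ ¬ (delB M l i j = true ∨ delB M l j i = true) := by
  have h1 : adjB (msk M l) i j = true ↔ i ≠ j ∧ (keepB M l i j = true ∨ keepB M l j i = true) := by
    unfold adjB
    rw [entry_msk hi hj, entry_msk hj hi]
    simp
  rw [h1]
  unfold keepB delB
  rw [adjB_symm M j i]
  simp only [Bool.and_eq_true, decide_eq_true_eq, Bool.not_eq_true', decide_eq_false_iff_not]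
  rcases lt_trichotomy i j with h | h | h
  · have h2 : ¬ j < i := by omega
    have h3 : i ≠ j := by omega
    tauto
  · have h2 : ¬ j < i := by omega
    have h3 : ¬ i < j := by omega
    constructor
    · rintro ⟨h4, _⟩
      exact absurd h h4
    · rintro ⟨h4, _⟩
      unfold adjB at h4
      simp [h] at h4
  · have h2 : ¬ i < j := by omega
    have h3 : i ≠ j := by omega
    tauto

/-- the graph of the masked matrix is the graph with the masked edges deleted -/
def isoMsk (M : List (List Bool)) (l : List ℕ) :
    graphOf (msk M l) ≃g (graphOf M).deleteEdges (delF M l : Set (Sym2 (Fin M.length))) where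
  toEquiv := finCongr (length_msk M l)
  map_rel_iff' := by
    intro a b
    have ha : (a : ℕ) < M.length := lt_of_lt_of_eq a.2 (length_msk M l)
    have hb : (b : ℕ) < M.length := lt_of_lt_of_eq b.2 (length_msk M l)
    rw [adj_graphOf, adj_msk_iff ha hb, SimpleGraph.deleteEdges_adj, adj_graphOf,
      Finset.mem_coe, mem_delF]
    rfl

/-- deletion sets correspond to masks -/
theorem exists_mask {M : List (List Bool)} {F : Finset (Sym2 (Fin M.length))}
    (hF : (F : Set (Sym2 (Fin M.length))) ⊆ (graphOf M).edgeSet) :
    ∃ f : ℕ → ℕ, (∀ i < M.length * M.length, f i < 2 ^ 1) ∧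
      delF M ((List.range (M.length * M.length)).map f) = F := by
  classical
  let f : ℕ → ℕ := fun t => if ∃ i j : Fin M.length, t = (i : ℕ) * M.length + j ∧ s(i, j) ∈ F
    then 1 else 0
  refine ⟨f, fun t _ => ?_, ?_⟩
  · simp only [f]
    split_ifs <;> norm_num
  · have key : ∀ i j : Fin M.length, delB M ((List.range (M.length * M.length)).map f) i j = true ↔
        i < j ∧ s(i, j) ∈ F := by
      intro i j
      have hi := i.2
      have hj := j.2
      have hij : (i : ℕ) * M.length + j < M.length * M.length := by
        have : ((i : ℕ) + 1) * M.length ≤ M.length * M.length := Nat.mul_le_mul_right _ hi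
        rw [Nat.succ_mul] at this
        omega
      unfold delB
      rw [getD_map_range f hij]
      have h1 : f ((i : ℕ) * M.length + j) = 0 ↔ s(i, j) ∉ F := by
        simp only [f]
        rw [ite_eq_right_iff]
        constructor
        · intro h hF'
          exact absurd (h ⟨i, j, rfl, hF'⟩) one_ne_zero
        · rintro h ⟨i', j', he, hF'⟩
          exfalso
          have e1 : (i : ℕ) = i' := by
            have h2 := congrArg (· / M.length) he
            beta_reduce at h2
            rw [mul_comm, mul_comm (i' : ℕ), Nat.mul_add_div (by omega), Nat.mul_add_div (by omega),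
              Nat.div_eq_of_lt hj, Nat.div_eq_of_lt j'.2] at h2
            omega
          have e2 : i = i' := Fin.ext e1
          subst e2
          have e3 : j = j' := Fin.ext (by omega)
          subst e3
          exact h hF'
      rw [Bool.and_eq_true, Bool.and_eq_true, decide_eq_true_eq, Bool.not_eq_true',
        decide_eq_false_iff_not, h1, not_not]
      constructor
      · rintro ⟨⟨h2, _⟩, h3⟩
        exact ⟨h2, h3⟩
      · rintro ⟨h2, h3⟩
        exact ⟨⟨h2, adj_graphOf.1 (hF h3)⟩, h3⟩
    ext e
    induction e with
    | _ i j =>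
      rw [mem_delF, key, key]
      constructor
      · rintro (h | h)
        · exact h.2
        · rw [Sym2.eq_swap]; exact h.2
      · intro h
        rcases lt_trichotomy i j with h1 | h1 | h1
        · exact Or.inl ⟨h1, h⟩
        · subst h1
          exact absurd (hF h) (by simp)
        · refine Or.inr ⟨h1, ?_⟩
          rw [Sym2.eq_swap]; exact h

/-- pairs `(M, t)` such that rigidity is destroyed by deleting at most `t` edges -/
def DEL : Set (List (List Bool) × ℕ) :=
  {a | ∃ F : Finset (Sym2 (Fin a.1.length)), (F : Set (Sym2 (Fin a.1.length))) ⊆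
    (graphOf a.1).edgeSet ∧ F.card ≤ a.2 ∧
    ¬ IsRigid ((graphOf a.1).deleteEdges (F : Set (Sym2 (Fin a.1.length))))}

theorem inNP_DEL (h : InP {M : List (List Bool) | IsRigid (graphOf M)}) : InNP DEL := by
  obtain ⟨r, hr, hr'⟩ := h
  have hn : PBd (fun a : List (List Bool) × ℕ => a.1.length) := pbd_length PolyTime.fst'
  refine InNP.of_list (fun p => decide (cnt p.1.1 p.2 ≤ p.1.2) && !r (msk p.1.1 p.2)) ?_
    (fun a => a.1.length * a.1.length) (fun _ => 1) (by fun_prop) (hn.mul hn) (by fun_prop)
    (PBd.const 1) (fun a => ?_)
  · fun_prop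
  · obtain ⟨M, t⟩ := a
    have hrig : ∀ l : List ℕ, (!r (msk M l)) = true ↔
        ¬ IsRigid ((graphOf M).deleteEdges (delF M l : Set (Sym2 (Fin M.length)))) := by
      intro l
      rw [← isRigid_iso (isoMsk M l), Bool.not_eq_true', ← Bool.not_eq_true, hr']
      rfl
    constructor
    · rintro ⟨F, hF, hc, hR⟩
      obtain ⟨f, hf, hf'⟩ := exists_mask hF
      refine ⟨f, hf, ?_⟩
      rw [Bool.and_eq_true, decide_eq_true_eq, hrig, ← card_delF]
      simp only
      rw [hf']
      exact ⟨hc, hR⟩
    · rintro ⟨f, _, h⟩
      rw [Bool.and_eq_true, decide_eq_true_eq, hrig, ← card_delF] at h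
      exact ⟨_, delF_subset _ _, h.1, h.2⟩

/-- If P = NP, the co-girth can be computed in polynomial time. -/
theorem exists_polyTime_coGirth (H : ∀ L : Set (List Bool), InNP L → InP L) :
    ∃ c : List (List Bool) → ℕ, PolyTime c ∧ ∀ M, c M = coGirth (graphOf M) := by
  obtain ⟨d, hd, hd'⟩ := InP.of_NP H (inNP_DEL (InP.of_NP H inNP_isRigid))
  have hn : PBd (fun M : List (List Bool) => M.length) := pbd_length PolyTime.id
  refine ⟨fun M => ((List.range (M.length * M.length + 1)).find? (fun t => d (M, t))).getD 0, ?_,
    fun M => ?_⟩
  · have h1 : PolyTime (fun M : List (List Bool) => List.range (M.length * M.length + 1)) :=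
      PolyTime.range (by fun_prop) ((hn.mul hn).add (PBd.const 1))
    exact PolyTime.option_getD (PolyTime.find? h1 (by fun_prop)) (PolyTime.const 0)
  · beta_reduce
    have hd2 : ∀ t, d (M, t) = true ↔ ∃ r ≤ t, ∃ F : Finset (Sym2 (Fin M.length)),
        (F : Set (Sym2 (Fin M.length))) ⊆ (graphOf M).edgeSet ∧ F.card = r ∧
        ¬ IsRigid ((graphOf M).deleteEdges (F : Set (Sym2 (Fin M.length)))) := by
      intro t
      rw [hd']
      constructor
      · rintro ⟨F, h1, h2, h3⟩
        exact ⟨F.card, h2, F, h1, rfl, h3⟩
      · rintro ⟨r, h0, F, h1, rfl, h3⟩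
        exact ⟨F, h1, h0, h3⟩
    unfold coGirth
    set T := {r : ℕ | ∃ F : Finset (Sym2 (Fin M.length)),
      (F : Set (Sym2 (Fin M.length))) ⊆ (graphOf M).edgeSet ∧ F.card = r ∧
      ¬ IsRigid ((graphOf M).deleteEdges (F : Set (Sym2 (Fin M.length))))} with hT
    cases hc : (List.range (M.length * M.length + 1)).find? (fun t => d (M, t)) with
    | none =>
      rw [List.find?_range_eq_none] at hc
      have hTe : T = ∅ := by
        rw [Set.eq_empty_iff_forall_notMem]
        rintro r ⟨F, h1, h2, h3⟩
        have hr : r < M.length * M.length + 1 := by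
          have h4 : F.card ≤ Fintype.card (Sym2 (Fin M.length)) := Finset.card_le_univ F
          have h5 : Fintype.card (Sym2 (Fin M.length)) ≤
              Fintype.card (Fin M.length × Fin M.length) :=
            Fintype.card_le_of_surjective _ Sym2.mk_surjective
          rw [Fintype.card_prod, Fintype.card_fin] at h5
          omega
        have h6 := hc r hr
        have h7 := (hd2 r).2 ⟨r, le_rfl, F, h1, h2, h3⟩
        rw [h7] at h6
        exact absurd h6 (by simp)
      rw [hTe]
      simp
    | some t =>
      rw [List.find?_range_eq_some] at hc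
      obtain ⟨h1, -, h3⟩ := hc
      obtain ⟨r, hr, hrT⟩ := (hd2 t).1 h1
      have hrt : r = t := by
        by_contra hne
        have h4 := h3 r (by omega)
        rw [(hd2 r).2 ⟨r, le_rfl, hrT⟩] at h4
        exact absurd h4 (by simp)
      subst hrt
      rw [Option.getD_some]
      apply le_antisymm
      · apply le_csInf ⟨r, hrT⟩
        intro s hs
        by_contra hlt
        have h4 := h3 s (by omega)
        rw [(hd2 s).2 ⟨s, le_rfl, hs⟩] at h4
        exact absurd h4 (by simp)
      · exact Nat.sInf_le hrT

end Pool.Agent.Helper4.CoGirth
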