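import Pool.Agent.PolyTime.Clique
import Pool.Agent.Helper77.CoGirth.GraphMain

/-!
Polynomial-time computability of the reduction from CLIQUE to the co-girth problem of the planar
rigidity matroid, and the NP-hardness theorem.
-/

set_option autoImplicit false

namespace Pool.Agent.Helper4.CoGirth

open Pool.Agent.PolyTime Pool.Agent.Helper77.CoGirth

variable {α : Type} [PEnc α]

@[fun_prop]
theorem polyTime_rr {n m j i : α → ℕ} (hn : PolyTime n) (hm : PolyTime m) (hj : PolyTime j)
    (hi : PolyTime i) : PolyTime (fun a => rr (n a) (m a) (j a) (i a)) := by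
  unfold rr
  fun_prop

theorem polyTime_heavy {n k : α → ℕ} {E : α → List (ℕ × ℕ)} (hn : PolyTime n) (hk : PolyTime k)
    (hE : PolyTime E) (hb : PBd n) : PolyTime (fun a => heavy (n a) (E a) (k a)) := by
  have h1 : PolyTime (fun a => List.range (n a)) := PolyTime.range hn hb
  have h2 : PolyTime (fun a => List.range (n a - k a - 1)) :=
    PolyTime.range (by fun_prop) (hb.mono (fun a => by omega))
  have h3 : PolyTime (fun a => List.range (n a - 1)) :=
    PolyTime.range (by fun_prop) (hb.mono (fun a => by omega))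
  have h4 : PolyTime (fun a => (List.range (n a)).map (fun v => (1, 2 + v))) :=
    PolyTime.map h1 (by fun_prop)
  have h5 : PolyTime (fun a : α × ℕ => List.range (n a.1 - 1)) := h3.comp PolyTime.fst'
  have h6 : PolyTime (fun a : α × ℕ => (List.range (n a.1 - 1)).flatMap (fun i =>
      [(rr (n a.1) (E a.1).length a.2 i,
          if i = 0 then 2 else rr (n a.1) (E a.1).length a.2 (i - 1)),
        (rr (n a.1) (E a.1).length a.2 i, 2 + (i + 1))])) :=
    PolyTime.flatMap h5 (by fun_prop)
  have h7 : PolyTime (fun a : α × ℕ => (List.range (n a.1 - 1)).flatMap (fun i =>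
      [(rr (n a.1) (E a.1).length a.2 i,
          if i = 0 then 2 else rr (n a.1) (E a.1).length a.2 (i - 1)),
        (rr (n a.1) (E a.1).length a.2 i, 2 + (i + 1))]) ++
        [(0, rr (n a.1) (E a.1).length a.2 (n a.1 - 2))]) :=
    h6.append (by fun_prop)
  have h8 : PolyTime (fun a => (List.range (n a - k a - 1)).flatMap (fun j =>
      (List.range (n a - 1)).flatMap (fun i =>
        [(rr (n a) (E a).length j i, if i = 0 then 2 else rr (n a) (E a).length j (i - 1)),
          (rr (n a) (E a).length j i, 2 + (i + 1))]) ++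
        [(0, rr (n a) (E a).length j (n a - 2))])) :=
    PolyTime.flatMap h2 h7
  have h9 : PolyTime (fun a => (List.range (E a).length).flatMap (fun i =>
      [(2 + n a + i, 2 + ((E a).getD i (0, 0)).1),
        (2 + n a + i, 2 + ((E a).getD i (0, 0)).2)])) :=
    PolyTime.flatMap (by fun_prop) (by fun_prop)
  have h0 : PolyTime (fun _ : α => [((0 : ℕ), (1 : ℕ))]) := by fun_prop
  exact ((h0.append h4).append h9).append h8

theorem polyTime_light {n : α → ℕ} {E : α → List (ℕ × ℕ)} (hn : PolyTime n)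
    (hE : PolyTime E) : PolyTime (fun a => light (n a) (E a)) := by
  unfold light
  fun_prop

theorem polyTime_base {n k : α → ℕ} {E : α → List (ℕ × ℕ)} (hn : PolyTime n) (hk : PolyTime k)
    (hE : PolyTime E) : PolyTime (fun a => base (n a) (E a) (k a)) := by
  unfold base
  fun_prop

theorem pbd_base {n k : α → ℕ} {E : α → List (ℕ × ℕ)} (hb : PBd n)
    (hE : PolyTime E) : PBd (fun a => base (n a) (E a) (k a)) := by
  refine PBd.mono ((((PBd.const 2).add hb).add (pbd_length hE)).add (hb.mul hb)) (fun a => ?_)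
  unfold base
  have : (n a - k a - 1) * (n a - 1) ≤ n a * n a := Nat.mul_le_mul (by omega) (by omega)
  omega

theorem polyTime_body_aux {H : α → List (ℕ × ℕ)} {B N : α → ℕ} (hH : PolyTime H)
    (hB : PolyTime B) (hN : PolyTime N) (hb : PBd N) :
    PolyTime (fun a : α × ℕ => [(H a.1).getD a.2 (0, 0)] ++
      (List.range (N a.1)).flatMap (fun t =>
        [(((H a.1).getD a.2 (0, 0)).1, B a.1 + a.2 * (N a.1) + t),
          (((H a.1).getD a.2 (0, 0)).2, B a.1 + a.2 * (N a.1) + t)]) ++
      (List.range (N a.1)).flatMap (fun t =>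
        (List.range t).map (fun t' =>
          (B a.1 + a.2 * (N a.1) + t', B a.1 + a.2 * (N a.1) + t)))) := by
  have h3 : PolyTime (fun a : α => List.range (N a)) := PolyTime.range hN hb
  have h3' : PolyTime (fun a : α × ℕ => List.range (N a.1)) := h3.comp PolyTime.fst'
  have h4 : PolyTime (fun a : α × ℕ => (List.range (N a.1)).flatMap (fun t =>
        [(((H a.1).getD a.2 (0, 0)).1, B a.1 + a.2 * (N a.1) + t),
          (((H a.1).getD a.2 (0, 0)).2, B a.1 + a.2 * (N a.1) + t)])) :=
    PolyTime.flatMap h3' (by fun_prop)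
  have h5 : PolyTime (fun a : (α × ℕ) × ℕ => (List.range (min a.2 (N a.1.1))).map (fun t' =>
          (B a.1.1 + a.1.2 * (N a.1.1) + t', B a.1.1 + a.1.2 * (N a.1.1) + a.2))) := by
    have h6 : PolyTime (fun a : (α × ℕ) × ℕ => List.range (min a.2 (N a.1.1))) := by
      refine PolyTime.range (by fun_prop) ?_
      exact PBd.mono (hb.comp (PolyTime.fst'.comp PolyTime.fst')) (fun a => min_le_right _ _)
    exact PolyTime.map h6 (by fun_prop)
  have h7 : PolyTime (fun a : α × ℕ => (List.range (N a.1)).flatMap (fun t =>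
        (List.range (min t (N a.1))).map (fun t' =>
          (B a.1 + a.2 * (N a.1) + t', B a.1 + a.2 * (N a.1) + t)))) :=
    PolyTime.flatMap h3' h5
  have h8 : PolyTime (fun a : α × ℕ => (List.range (N a.1)).flatMap (fun t =>
        (List.range t).map (fun t' =>
          (B a.1 + a.2 * (N a.1) + t', B a.1 + a.2 * (N a.1) + t)))) := by
    refine h7.congr (fun a => ?_)
    apply List.flatMap_congr
    intro t ht
    rw [List.mem_range] at ht
    rw [min_eq_left ht.le]
  exact (PolyTime.append (by fun_prop) h4).append h8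

theorem polyTime_edges {n k : α → ℕ} {E : α → List (ℕ × ℕ)} (hn : PolyTime n) (hk : PolyTime k)
    (hE : PolyTime E) (hb : PBd n) : PolyTime (fun a => edges (n a) (E a) (k a)) := by
  have h1 : PolyTime (fun a : α => heavy (n a) (E a) (k a)) := polyTime_heavy hn hk hE hb
  have h2 : PolyTime (fun a : α => base (n a) (E a) (k a)) := polyTime_base hn hk hE
  have h3 : PolyTime (fun a : α => light (n a) (E a)) := polyTime_light hn hE
  have h4 : PolyTime (fun a : α => (E a).length + 1) := by fun_prop
  have h5 : PBd (fun a : α => (E a).length + 1) := (pbd_length hE).add (PBd.const 1)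
  have h6 := polyTime_body_aux h1 h2 h4 h5
  exact h3.append (PolyTime.flatMap (PolyTime.range_length h1) h6)

theorem polyTime_numV {n k : α → ℕ} {E : α → List (ℕ × ℕ)} (hn : PolyTime n) (hk : PolyTime k)
    (hE : PolyTime E) (hb : PBd n) : PolyTime (fun a => numV (n a) (E a) (k a)) := by
  have h1 : PolyTime (fun a : α => heavy (n a) (E a) (k a)) := polyTime_heavy hn hk hE hb
  have h2 : PolyTime (fun a : α => base (n a) (E a) (k a)) := polyTime_base hn hk hE
  exact PolyTime.add h2 (PolyTime.mul h1.length (by fun_prop))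

theorem pbd_numV {n k : α → ℕ} {E : α → List (ℕ × ℕ)} (hn : PolyTime n) (hk : PolyTime k)
    (hE : PolyTime E) (hb : PBd n) : PBd (fun a => numV (n a) (E a) (k a)) := by
  have h1 : PolyTime (fun a : α => heavy (n a) (E a) (k a)) := polyTime_heavy hn hk hE hb
  exact (pbd_base hb hE).add ((pbd_length h1).mul ((pbd_length hE).add (PBd.const 1)))

/-- adjacency matrix of the graph with vertex set `0, ..., N-1` and edge list `D` -/
def adjMatrix (N : ℕ) (D : List (ℕ × ℕ)) : List (List Bool) :=
  (List.range N).map (fun i => (List.range N).map (fun j =>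
    decide ((i, j) ∈ D) || decide ((j, i) ∈ D)))

theorem polyTime_adjMatrix {N : α → ℕ} {D : α → List (ℕ × ℕ)} (hN : PolyTime N) (hb : PBd N)
    (hD : PolyTime D) : PolyTime (fun a => adjMatrix (N a) (D a)) := by
  have h1 : PolyTime (fun a : α => List.range (N a)) := PolyTime.range hN hb
  have h2 : PolyTime (fun a : α × ℕ => List.range (N a.1)) := h1.comp PolyTime.fst'
  have h3 : PolyTime (fun a : (α × ℕ) × ℕ => decide ((a.1.2, a.2) ∈ D a.1.1)) :=
    (PolyTime.decide_mem (f := fun a : (α × ℕ) × ℕ => (a.1.2, a.2))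
      (l := fun a : (α × ℕ) × ℕ => D a.1.1) (by fun_prop) (by fun_prop)).congr
      (fun a => decide_eq_decide.2 Iff.rfl)
  have h4 : PolyTime (fun a : (α × ℕ) × ℕ => decide ((a.2, a.1.2) ∈ D a.1.1)) :=
    (PolyTime.decide_mem (f := fun a : (α × ℕ) × ℕ => (a.2, a.1.2))
      (l := fun a : (α × ℕ) × ℕ => D a.1.1) (by fun_prop) (by fun_prop)).congr
      (fun a => decide_eq_decide.2 Iff.rfl)
  exact PolyTime.map h1 (PolyTime.map h2 (h3.or h4))

/-- The entry of a 0/1 matrix (`false` outside the matrix). -/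
def entry (M : List (List Bool)) (i j : ℕ) : Bool := (M.getD i []).getD j false

/-- The simple graph with adjacency matrix `M`; its vertices are the row indices of `M`, and `i`,
`j` are adjacent if `i ≠ j` and one of the entries `(i, j)`, `(j, i)` is `true`. -/
def graphOf (M : List (List Bool)) : SimpleGraph (Fin M.length) where
  Adj i j := i ≠ j ∧ (entry M i j = true ∨ entry M j i = true)
  symm := ⟨fun _ _ h => ⟨h.1.symm, h.2.symm⟩⟩
  loopless := ⟨fun _ h => h.1 rfl⟩

theorem length_adjMatrix (N : ℕ) (D : List (ℕ × ℕ)) : (adjMatrix N D).length = N := by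
  unfold adjMatrix
  simp

theorem entry_adjMatrix {N : ℕ} {D : List (ℕ × ℕ)} {i j : ℕ} (hi : i < N) (hj : j < N) :
    entry (adjMatrix N D) i j = true ↔ (i, j) ∈ D ∨ (j, i) ∈ D := by
  unfold entry adjMatrix
  simp [List.getD, hi, hj]

/-- the adjacency matrix of the constructed graph -/
def mat (n : ℕ) (E : List (ℕ × ℕ)) (k : ℕ) : List (List Bool) :=
  adjMatrix (numV n E k) (edges n E k)

theorem length_mat (n : ℕ) (E : List (ℕ × ℕ)) (k : ℕ) : (mat n E k).length = numV n E k :=
  length_adjMatrix _ _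

theorem entry_mat {n : ℕ} {E : List (ℕ × ℕ)} {k i j : ℕ} (hi : i < numV n E k)
    (hj : j < numV n E k) :
    entry (mat n E k) i j = true ↔ (i, j) ∈ edges n E k ∨ (j, i) ∈ edges n E k :=
  entry_adjMatrix hi hj

/-- the graph of the adjacency matrix is the given graph -/
def isoAdj (n : ℕ) (E : List (ℕ × ℕ)) (k : ℕ) : graphOf (mat n E k) ≃g graph n E k where
  toEquiv := finCongr (length_mat n E k)
  map_rel_iff' := by
    intro a b
    have ha : (a : ℕ) < numV n E k := lt_of_lt_of_eq a.2 (length_mat _ _ _)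
    have hb : (b : ℕ) < numV n E k := lt_of_lt_of_eq b.2 (length_mat _ _ _)
    have hva : ((finCongr (length_mat n E k) a : Fin (numV n E k)) : ℕ) = a := rfl
    have hvb : ((finCongr (length_mat n E k) b : Fin (numV n E k)) : ℕ) = b := rfl
    change (finCongr (length_mat n E k) a ≠ finCongr (length_mat n E k) b ∧
      ((((finCongr (length_mat n E k) a : Fin (numV n E k)) : ℕ),
        ((finCongr (length_mat n E k) b : Fin (numV n E k)) : ℕ)) ∈ edges n E k ∨
      (((finCongr (length_mat n E k) b : Fin (numV n E k)) : ℕ),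
        ((finCongr (length_mat n E k) a : Fin (numV n E k)) : ℕ)) ∈ edges n E k)) ↔
      (a ≠ b ∧ (entry (mat n E k) a b = true ∨ entry (mat n E k) b a = true))
    rw [entry_mat ha hb, entry_mat hb ha]
    rw [ne_eq, ne_eq, Fin.ext_iff, Fin.ext_iff (a := a), hva, hvb]
    tauto

theorem polyTime_mat {n k : α → ℕ} {E : α → List (ℕ × ℕ)} (hn : PolyTime n) (hk : PolyTime k)
    (hE : PolyTime E) (hb : PBd n) : PolyTime (fun a => mat (n a) (E a) (k a)) :=
  polyTime_adjMatrix (polyTime_numV hn hk hE hb) (pbd_numV hn hk hE hb)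
    (polyTime_edges hn hk hE hb)

/-- Reduction from SAT: a formula is mapped to a rigid graph and a number. -/
theorem exists_reduction : ∃ g : List (List (ℕ × Bool)) → List (List Bool) × ℕ, PolyTime g ∧
    ∀ φ, IsRigid (graphOf (g φ).1) ∧ (φ ∈ SAT ↔ coGirth (graphOf (g φ).1) ≤ (g φ).2) := by
  let G : List (List (ℕ × Bool)) → ℕ × List (ℕ × ℕ) × ℕ := fun φ => Clq.inst (Clq.dummy φ)
  have hG : PolyTime G := Clq.polyTime_inst.comp Clq.polyTime_dummy
  have h4 : ∀ φ, 4 ≤ (Clq.dummy φ).length := fun φ => by rw [Clq.length_dummy]; omega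
  have hb : PBd (fun φ => (G φ).1) := by
    have h1 := Clq.polyTime_verts.comp Clq.polyTime_dummy
    have h2 := pbd_length Clq.polyTime_dummy
    exact (pbd_length h1).add ((PBd.const 2).mul (h2.mul h2))
  have h1 : PolyTime (fun φ => mat (G φ).1 (G φ).2.1 (G φ).2.2) :=
    polyTime_mat hG.fst hG.snd.snd hG.snd.fst hb
  have h2 : PolyTime (fun φ => (G φ).2.1.length - (G φ).2.2 * ((G φ).2.2 - 1) / 2) := by
    have := hG.snd.snd
    have := hG.snd.fst
    fun_prop
  refine ⟨fun φ => (mat (G φ).1 (G φ).2.1 (G φ).2.2,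
    (G φ).2.1.length - (G φ).2.2 * ((G φ).2.2 - 1) / 2), h1.prodMk h2, fun φ => ?_⟩
  have h3 := graph_correct (G φ).1 (G φ).2.1 (G φ).2.2 (Clq.nodup_inst _)
    (fun p hp => Clq.inst_edges hp) (h4 φ) (Clq.inst_n (h4 φ)) (Clq.inst_card (h4 φ))
  rw [Nat.choose_two_right] at h3
  have hiso := isoAdj (G φ).1 (G φ).2.1 (G φ).2.2
  rw [isRigid_iso hiso, coGirth_iso hiso]
  refine ⟨h3.1, ?_⟩
  rw [← h3.2, ← Clq.dummy_iff, ← Clq.inst_iff (h4 φ)]
  rfl

end Pool.Agent.Helper4.CoGirth
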