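import Pool.Agent.PolyTime.Cert
import Pool.Agent.Helper4.CoGirth.Encode
import Pool.Agent.Helper77.CoGirth.Cert

/-!
Rigidity in the plane of a graph given by its adjacency matrix is in NP.
-/

set_option autoImplicit false

namespace Pool.Agent.Helper4.CoGirth

open Pool.Agent.PolyTime Pool.Agent.Helper77.CoGirth

/-- adjacency as a boolean -/
def adjB (M : List (List Bool)) (i j : ℕ) : Bool := !decide (i = j) && (entry M i j || entry M j i)

theorem adj_graphOf {M : List (List Bool)} {i j : Fin M.length} :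
    (graphOf M).Adj i j ↔ adjB M i j = true := by
  unfold graphOf adjB
  simp [Fin.ext_iff]

/-- the rank demanded by rigidity -/
def rk (n : ℕ) : ℕ := min (n * (n - 1) / 2) (2 * n - 3)

theorem rk_eq (n : ℕ) : rk n = rigRank n := by
  unfold rk rigRank
  rw [Nat.choose_two_right]

theorem rk_le (n : ℕ) : rk n ≤ 2 * n := by
  unfold rk
  omega

def pc (l : List ℕ) (v c : ℕ) : ℕ := l.getD (1 + (2 * v + c)) 0 % l.getD 0 0

def zc (n : ℕ) (l : List ℕ) (j v c : ℕ) : ℕ :=
  l.getD (1 + 2 * n + 2 * rk n + ((j * n + v) * 2 + c)) 0 % l.getD 0 0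

def s1 (n : ℕ) (l : List ℕ) (i : ℕ) : ℕ := l.getD (1 + 2 * n + 2 * i) 0

def s2 (n : ℕ) (l : List ℕ) (i : ℕ) : ℕ := l.getD (1 + 2 * n + (2 * i + 1)) 0

/-- the equations -/
def eqn (n : ℕ) (l : List ℕ) (i j : ℕ) : Bool :=
  decide (((pc l (s1 n l i) 0 * zc n l j (s1 n l i) 0 + pc l (s2 n l i) 0 * zc n l j (s2 n l i) 0) +
      (pc l (s1 n l i) 1 * zc n l j (s1 n l i) 1 + pc l (s2 n l i) 1 * zc n l j (s2 n l i) 1)) %
        l.getD 0 0 =
    (((pc l (s1 n l i) 0 * zc n l j (s2 n l i) 0 + pc l (s2 n l i) 0 * zc n l j (s1 n l i) 0) +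
      (pc l (s1 n l i) 1 * zc n l j (s2 n l i) 1 + pc l (s2 n l i) 1 * zc n l j (s1 n l i) 1)) +
        if i = j then 1 else 0) % l.getD 0 0)

/-- the verifier -/
def ver (a : List (List Bool) × List ℕ) : Bool :=
  decide (2 ≤ a.2.getD 0 0) &&
  (List.range (rk a.1.length)).all (fun i => decide (s1 a.1.length a.2 i < a.1.length) &&
    decide (s2 a.1.length a.2 i < a.1.length) &&
    adjB a.1 (s1 a.1.length a.2 i) (s2 a.1.length a.2 i)) &&
  (List.range (rk a.1.length)).all (fun i => (List.range (rk a.1.length)).all (fun j =>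
    eqn a.1.length a.2 i j))

section poly

variable {α : Type} [PEnc α]

@[fun_prop]
theorem polyTime_rk {n : α → ℕ} (hn : PolyTime n) : PolyTime (fun a => rk (n a)) := by
  unfold rk
  fun_prop

theorem pbd_rk {n : α → ℕ} (hn : PBd n) : PBd (fun a => rk (n a)) :=
  PBd.mono ((PBd.const 2).mul hn) (fun a => rk_le _)

@[fun_prop]
theorem polyTime_entry {M : α → List (List Bool)} {i j : α → ℕ} (hM : PolyTime M)
    (hi : PolyTime i) (hj : PolyTime j) : PolyTime (fun a => entry (M a) (i a) (j a)) := by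
  unfold entry
  fun_prop

@[fun_prop]
theorem polyTime_adjB {M : α → List (List Bool)} {i j : α → ℕ} (hM : PolyTime M)
    (hi : PolyTime i) (hj : PolyTime j) : PolyTime (fun a => adjB (M a) (i a) (j a)) := by
  unfold adjB
  fun_prop

@[fun_prop]
theorem polyTime_pc {l : α → List ℕ} {v c : α → ℕ} (hl : PolyTime l)
    (hv : PolyTime v) (hc : PolyTime c) : PolyTime (fun a => pc (l a) (v a) (c a)) := by
  unfold pc
  fun_prop

@[fun_prop]
theorem polyTime_zc {n : α → ℕ} {l : α → List ℕ} {j v c : α → ℕ} (hn : PolyTime n)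
    (hl : PolyTime l) (hj : PolyTime j) (hv : PolyTime v) (hc : PolyTime c) :
    PolyTime (fun a => zc (n a) (l a) (j a) (v a) (c a)) := by
  unfold zc
  fun_prop

@[fun_prop]
theorem polyTime_s1 {n : α → ℕ} {l : α → List ℕ} {i : α → ℕ} (hn : PolyTime n)
    (hl : PolyTime l) (hi : PolyTime i) : PolyTime (fun a => s1 (n a) (l a) (i a)) := by
  unfold s1
  fun_prop

@[fun_prop]
theorem polyTime_s2 {n : α → ℕ} {l : α → List ℕ} {i : α → ℕ} (hn : PolyTime n)
    (hl : PolyTime l) (hi : PolyTime i) : PolyTime (fun a => s2 (n a) (l a) (i a)) := by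
  unfold s2
  fun_prop

@[fun_prop]
theorem polyTime_eqn {n : α → ℕ} {l : α → List ℕ} {i j : α → ℕ} (hn : PolyTime n)
    (hl : PolyTime l) (hi : PolyTime i) (hj : PolyTime j) :
    PolyTime (fun a => eqn (n a) (l a) (i a) (j a)) := by
  unfold eqn
  fun_prop

theorem polyTime_ver : PolyTime ver := by
  have h0 : PolyTime (fun a : List (List Bool) × List ℕ => List.range (rk a.1.length)) :=
    PolyTime.range (by fun_prop) (pbd_rk (pbd_length (by fun_prop)))
  have h1 : PolyTime (fun a : (List (List Bool) × List ℕ) × ℕ =>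
      List.range (rk a.1.1.length)) := h0.comp PolyTime.fst'
  have h2 : PolyTime (fun a : List (List Bool) × List ℕ => decide (2 ≤ a.2.getD 0 0)) := by
    fun_prop
  exact (h2.and (PolyTime.all h0 (by fun_prop))).and
    (PolyTime.all h0 (PolyTime.all h1 (by fun_prop)))

end poly

/-- number of entries of a certificate -/
def cN (n : ℕ) : ℕ := 1 + 2 * n + 2 * rk n + rk n * n * 2

/-- width of the entries of a certificate -/
def cW (n : ℕ) : ℕ := 8 * n ^ 2 + 2

theorem getD_map_range (f : ℕ → ℕ) {N i : ℕ} (hi : i < N) :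
    ((List.range N).map f).getD i 0 = f i := by
  rw [List.getD_eq_getElem _ _ (by simpa using hi)]
  simp

/-- soundness of the verifier -/
theorem ver_sound {M : List (List Bool)} {f : ℕ → ℕ} (hf : ∀ i < cN M.length, f i < 2 ^ cW M.length)
    (h : ver (M, (List.range (cN M.length)).map f) = true) : IsRigid (graphOf M) := by
  unfold ver at h
  simp only [Bool.and_eq_true, decide_eq_true_eq, List.all_eq_true, List.mem_range] at h
  obtain ⟨⟨hm, hS⟩, heq⟩ := h
  set l := (List.range (cN M.length)).map f with hl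
  have hmB : l.getD 0 0 < certBound M.length := by
    rw [hl, getD_map_range f (by unfold cN; omega)]
    exact hf 0 (by unfold cN; omega)
  have hm0 : 0 < l.getD 0 0 := by omega
  have hr := rk_eq M.length
  rw [isRigid_iff_cert]
  refine ⟨l.getD 0 0, fun v c => pc l v c,
    fun i => (⟨s1 M.length l i, (hS i (by rw [hr]; exact i.2)).1.1⟩,
      ⟨s2 M.length l i, (hS i (by rw [hr]; exact i.2)).1.2⟩),
    fun j v c => zc M.length l j v c, hm, hmB, fun v c => Nat.mod_lt _ hm0,
    fun j v c => Nat.mod_lt _ hm0, fun i => ?_, fun i j => ?_⟩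
  · rw [adj_graphOf]
    exact (hS i (by rw [hr]; exact i.2)).2
  · have h1 := heq i (by rw [hr]; exact i.2) j (by rw [hr]; exact j.2)
    unfold eqn at h1
    rw [decide_eq_true_eq] at h1
    rw [Fin.sum_univ_two, Fin.sum_univ_two]
    have h2 : (if i = j then 1 else 0) = (if (i : ℕ) = (j : ℕ) then 1 else 0) := by
      simp [Fin.ext_iff]
    rw [h2]
    exact h1

/-- completeness of the verifier -/
theorem ver_complete_aux {M : List (List Bool)} {n : ℕ} {m : ℕ} {p : Fin n → Fin 2 → ℕ}
    {S : Fin (rigRank n) → Fin n × Fin n} {Z : Fin (rigRank n) → Fin n → Fin 2 → ℕ}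
    (hM : M.length = n) (hm : 2 ≤ m) (hmB : m < certBound n) (hp : ∀ v c, p v c < m)
    (hZ : ∀ j v c, Z j v c < m) (hS : ∀ i, adjB M (S i).1 (S i).2 = true)
    (heq : ∀ i j, (∑ c : Fin 2, (p (S i).1 c * Z j (S i).1 c + p (S i).2 c * Z j (S i).2 c)) % m =
      ((∑ c : Fin 2, (p (S i).1 c * Z j (S i).2 c + p (S i).2 c * Z j (S i).1 c)) +
        if i = j then 1 else 0) % m) :
    ∃ f : ℕ → ℕ, (∀ i < cN n, f i < 2 ^ cW n) ∧
      ver (M, (List.range (cN n)).map f) = true := by
  have hr := rk_eq n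
  have hmB' : m < 2 ^ cW n := hmB
  have hnB : n < 2 ^ cW n := by
    refine Nat.lt_two_pow_self.trans_le (Nat.pow_le_pow_right (by norm_num) ?_)
    unfold cW
    nlinarith
  let p' : ℕ → ℕ → ℕ := fun v c => if h : v < n ∧ c < 2 then p ⟨v, h.1⟩ ⟨c, h.2⟩ else 0
  let S1 : ℕ → ℕ := fun i => if h : i < rigRank n then (S ⟨i, h⟩).1 else 0
  let S2 : ℕ → ℕ := fun i => if h : i < rigRank n then (S ⟨i, h⟩).2 else 0
  let Z' : ℕ → ℕ → ℕ → ℕ := fun j v c =>
    if h : j < rigRank n ∧ v < n ∧ c < 2 then Z ⟨j, h.1⟩ ⟨v, h.2.1⟩ ⟨c, h.2.2⟩ else 0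
  let f : ℕ → ℕ := fun i =>
    if i = 0 then m
    else if i < 1 + 2 * n then p' ((i - 1) / 2) ((i - 1) % 2)
    else if i < 1 + 2 * n + 2 * rk n then
      (if (i - (1 + 2 * n)) % 2 = 0 then S1 ((i - (1 + 2 * n)) / 2)
        else S2 ((i - (1 + 2 * n)) / 2))
    else Z' ((i - (1 + 2 * n + 2 * rk n)) / 2 / n) ((i - (1 + 2 * n + 2 * rk n)) / 2 % n)
      ((i - (1 + 2 * n + 2 * rk n)) % 2)
  have hm0 : 0 < m := by omega
  have hp' : ∀ v c, p' v c < m := by
    intro v c
    simp only [p']
    split_ifs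
    · exact hp _ _
    · exact hm0
  have hZ' : ∀ j v c, Z' j v c < m := by
    intro j v c
    simp only [Z']
    split_ifs
    · exact hZ _ _ _
    · exact hm0
  have hS1 : ∀ i, S1 i < 2 ^ cW n := by
    intro i
    simp only [S1]
    split_ifs
    · exact (Fin.is_lt _).trans hnB
    · positivity
  have hS2 : ∀ i, S2 i < 2 ^ cW n := by
    intro i
    simp only [S2]
    split_ifs
    · exact (Fin.is_lt _).trans hnB
    · positivity
  refine ⟨f, fun i _ => ?_, ?_⟩
  · simp only [f]
    split_ifs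
    · exact hmB'
    · exact (hp' _ _).trans hmB'
    · exact hS1 _
    · exact hS2 _
    · exact (hZ' _ _ _).trans hmB'
  · set l := (List.range (cN n)).map f with hl
    have l0 : l.getD 0 0 = m := by
      rw [hl, getD_map_range f (by unfold cN; omega)]
      simp [f]
    have lp : ∀ (v : Fin n) (c : Fin 2), pc l v c = p v c := by
      intro v c
      have hv := v.2
      have hc := c.2
      unfold pc
      rw [l0, hl, getD_map_range f (by unfold cN; omega)]
      have e1 : f (1 + (2 * (v : ℕ) + c)) = p v c := by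
        have e2 : (1 + (2 * (v : ℕ) + c) - 1) / 2 = v := by omega
        have e3 : (1 + (2 * (v : ℕ) + c) - 1) % 2 = c := by omega
        simp only [f]
        rw [if_neg (by omega), if_pos (by omega), e2, e3]
        simp only [p']
        rw [dif_pos ⟨hv, hc⟩]
      rw [e1, Nat.mod_eq_of_lt (hp _ _)]
    have ls1 : ∀ i : Fin (rigRank n), s1 n l i = (S i).1 := by
      intro i
      have hi : (i : ℕ) < rk n := lt_of_lt_of_eq i.2 hr.symm
      unfold s1
      rw [hl, getD_map_range f (by unfold cN; omega)]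
      have e2 : (1 + 2 * n + 2 * (i : ℕ) - (1 + 2 * n)) / 2 = i := by omega
      have e3 : (1 + 2 * n + 2 * (i : ℕ) - (1 + 2 * n)) % 2 = 0 := by omega
      simp only [f]
      rw [if_neg (by omega), if_neg (by omega), if_pos (by omega), if_pos e3, e2]
      simp only [S1]
      rw [dif_pos i.2]
    have ls2 : ∀ i : Fin (rigRank n), s2 n l i = (S i).2 := by
      intro i
      have hi : (i : ℕ) < rk n := lt_of_lt_of_eq i.2 hr.symm
      unfold s2
      rw [hl, getD_map_range f (by unfold cN; omega)]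
      have e2 : (1 + 2 * n + (2 * (i : ℕ) + 1) - (1 + 2 * n)) / 2 = i := by omega
      have e3 : ¬ (1 + 2 * n + (2 * (i : ℕ) + 1) - (1 + 2 * n)) % 2 = 0 := by omega
      simp only [f]
      rw [if_neg (by omega), if_neg (by omega), if_pos (by omega), if_neg e3, e2]
      simp only [S2]
      rw [dif_pos i.2]
    have lz : ∀ (j : Fin (rigRank n)) (v : Fin n) (c : Fin 2), zc n l j v c = Z j v c := by
      intro j v c
      have hj : (j : ℕ) < rk n := lt_of_lt_of_eq j.2 hr.symm
      have hv := v.2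
      have hc := c.2
      have hjn : (j : ℕ) * n + v < rk n * n := by
        have : ((j : ℕ) + 1) * n ≤ rk n * n := Nat.mul_le_mul_right _ hj
        rw [Nat.succ_mul] at this
        omega
      unfold zc
      rw [l0, hl, getD_map_range f (by unfold cN; omega)]
      have e1 : f (1 + 2 * n + 2 * rk n + (((j : ℕ) * n + v) * 2 + c)) = Z j v c := by
        have e2 : (1 + 2 * n + 2 * rk n + (((j : ℕ) * n + v) * 2 + c) - (1 + 2 * n + 2 * rk n)) / 2 =
          (j : ℕ) * n + v := by omega
        have e3 : (1 + 2 * n + 2 * rk n + (((j : ℕ) * n + v) * 2 + c) - (1 + 2 * n + 2 * rk n)) % 2 =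
          c := by omega
        have e4 : ((j : ℕ) * n + v) / n = j := by
          rw [mul_comm, Nat.mul_add_div (by omega), Nat.div_eq_of_lt hv, add_zero]
        have e5 : ((j : ℕ) * n + v) % n = v := by
          rw [mul_comm, Nat.mul_add_mod, Nat.mod_eq_of_lt hv]
        simp only [f]
        rw [if_neg (by omega), if_neg (by omega), if_neg (by omega), e2, e3, e4, e5]
        simp only [Z']
        rw [dif_pos ⟨j.2, hv, hc⟩]
      rw [e1, Nat.mod_eq_of_lt (hZ _ _ _)]
    unfold ver
    simp only [Bool.and_eq_true, decide_eq_true_eq, List.all_eq_true, List.mem_range, hM]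
    refine ⟨⟨by rw [l0]; exact hm, fun i hi => ?_⟩, fun i hi j hj => ?_⟩
    · rw [hr] at hi
      have h1 := ls1 ⟨i, hi⟩
      have h2 := ls2 ⟨i, hi⟩
      simp only at h1 h2
      rw [h1, h2]
      exact ⟨⟨Fin.is_lt _, Fin.is_lt _⟩, hS _⟩
    · rw [hr] at hi hj
      have h1 := ls1 ⟨i, hi⟩
      have h2 := ls2 ⟨i, hi⟩
      simp only at h1 h2
      have h3 := heq ⟨i, hi⟩ ⟨j, hj⟩
      rw [Fin.sum_univ_two, Fin.sum_univ_two] at h3
      unfold eqn
      rw [decide_eq_true_eq, h1, h2, l0]
      have p0 := fun v => lp v 0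
      have p1 := fun v => lp v 1
      have z0 := fun v => lz ⟨j, hj⟩ v 0
      have z1 := fun v => lz ⟨j, hj⟩ v 1
      simp only [Fin.val_zero, Fin.val_one] at p0 p1 z0 z1
      rw [p0, p1, p0, p1, z0, z1, z0, z1]
      simp only [Fin.mk.injEq] at h3
      exact h3

/-- the graph of an adjacency matrix is rigid iff it has a certificate -/
theorem isRigid_iff_ver (M : List (List Bool)) : IsRigid (graphOf M) ↔
    ∃ f : ℕ → ℕ, (∀ i < cN M.length, f i < 2 ^ cW M.length) ∧
      ver (M, (List.range (cN M.length)).map f) = true := by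
  constructor
  · intro h
    rw [isRigid_iff_cert] at h
    obtain ⟨m, p, S, Z, hm, hmB, hp, hZ, hS, heq⟩ := h
    exact ver_complete_aux rfl hm hmB hp hZ (fun i => adj_graphOf.1 (hS i)) heq
  · rintro ⟨f, hf, h⟩
    exact ver_sound hf h

/-- Rigidity in the plane is in NP. -/
theorem inNP_isRigid : InNP {M : List (List Bool) | IsRigid (graphOf M)} := by
  have hn : PBd (fun M : List (List Bool) => M.length) := pbd_length PolyTime.id
  refine InNP.of_list ver polyTime_ver (fun M => cN M.length) (fun M => cW M.length) ?_ ?_ ?_ ?_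
    (fun M => isRigid_iff_ver M)
  · unfold cN
    fun_prop
  · unfold cN
    exact (((PBd.const 1).add ((PBd.const 2).mul hn)).add ((PBd.const 2).mul (pbd_rk hn))).add
      (((pbd_rk hn).mul hn).mul (PBd.const 2))
  · unfold cW
    fun_prop
  · unfold cW
    exact ((PBd.const 8).mul (hn.pow 2)).add (PBd.const 2)

end Pool.Agent.Helper4.CoGirth
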